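import Mathlib
import Pool.Agent.K7.H54.SG.BFin

/-!
# Quadratic twists by the values of binary forms

`E : y² = x³ + A x + B` is an elliptic curve with three integer roots and `F` is an arbitrary nonzero
binary form with integer coefficients, of any degree, reducible or not, with arbitrary multiple
factors. The twists of `E` by `F(x, y)` are ordered by the size of `x` and `y`. All the moments of
`2 ^ rank * #Ш[2 ^ k] ^ (1 / k)` are bounded on the average over `|x|, |y| ≤ T`. For example all the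
moments of `2 ^ rank` are bounded over the twists by `D(t)`, where `D` is a polynomial of any degree
and `t` runs over the rational numbers of height at most `T`.

The same holds for the ranks and the coranks of the Tate-Shafarevich groups of the twists by `F₀(x, y)`
over the varying number fields `ℚ(√F₁(x, y), ..., √F_m(x, y))`, for arbitrary binary forms.
-/

set_option autoImplicit false

namespace Pool.Agent.Results.MP_157626_nt.BinaryFormTwists

open Finset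

open Pool.Agent.TH841.SH.D (Sha ShaTor)

/-- the binary form `F(x, y) = ∑ c_i x ^ i y ^ (n - i)`, `0 ≤ i ≤ n`, of degree `n` -/
def form (n : ℕ) (c : ℕ → ℤ) (t : ℤ × ℤ) : ℤ := ∑ i ∈ range (n + 1), c i * t.1 ^ i * t.2 ^ (n - i)

/-- the curve `y² = x³ + A x + B` over `F` -/
def EF (A B : ℤ) (F : Type) [Field F] : WeierstrassCurve F := ⟨0, 0, 0, (A : F), (B : F)⟩

/-- the quadratic twist `y² = x³ + d² A x + d³ B` of `y² = x³ + A x + B` over `ℚ` by `d` -/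
def Tw (A B d : ℤ) : WeierstrassCurve ℚ := ⟨0, 0, 0, ((d ^ 2 * A : ℤ) : ℚ), ((d ^ 3 * B : ℤ) : ℚ)⟩

/-- the number field `F` is generated by square roots of the integers `d i` -/
def Gen (F : Type) [Field F] [NumberField F] {m : ℕ} (d : Fin m → ℤ) : Prop :=
  ∃ x : Fin m → F, (∀ i, x i ^ 2 = (d i : F)) ∧
    IntermediateField.adjoin ℚ (Set.range x) = ⊤

open Classical in
/-- the pairs `(x, y)` of integers, `|x|, |y| ≤ T`, with `F(x, y) ≠ 0` -/
noncomputable def Par (n : ℕ) (c : ℕ → ℤ) (T : ℕ) : Finset (ℤ × ℤ) :=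
  (Icc (-(T : ℤ)) T ×ˢ Icc (-(T : ℤ)) T).filter (fun t => form n c t ≠ 0)

open Classical in
/-- the pairs `(x, y)` of integers, `|x|, |y| ≤ T`, with `F₀(x, y) ≠ 0` and `F_i(x, y) ≠ 0` -/
noncomputable def ParF (n₀ : ℕ) (c₀ : ℕ → ℤ) {m : ℕ} (n : Fin m → ℕ) (c : Fin m → ℕ → ℤ) (T : ℕ) :
    Finset (ℤ × ℤ) :=
  (Icc (-(T : ℤ)) T ×ˢ Icc (-(T : ℤ)) T).filter
    (fun t => form n₀ c₀ t ≠ 0 ∧ ∀ i, form (n i) (c i) t ≠ 0)

open Classical in
/-- **Theorem.** Let `y² = (x - e₁) (x - e₂) (x - e₃) = x³ + A x + B` be an elliptic curve with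
integers `e₁`, `e₂`, `e₃`.

(1) Let `F` be a nonzero binary form with integer coefficients and let `W_t` be the quadratic twist of
the curve by `F(t)`. For every `s` there is `C` such that for all `T ≥ 1` and the pairs `t = (x, y)`
of integers with `|x|, |y| ≤ T` and `F(t) ≠ 0`: the groups `Ш(W_t)[2 ^ k]` are finite, the sum of
`(2 ^ rank * #Ш(W_t)[2 ^ k] ^ (1 / k)) ^ s` is at most `C T²` for all `k ≥ 1`, and at most
`C T² / 2 ^ (s (r + q))` of these `t` have a twist `W_t` of rank at least `r` with a subgroup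
`(ℚ₂ / ℤ₂) ^ q` in the Tate-Shafarevich group.

(2) Let `F₀`, `F₁`, ..., `F_m` be nonzero binary forms with integer coefficients,
`K t = ℚ(√F₁(t), ..., √F_m(t))` and `W t` the quadratic twist of the curve by `F₀(t)`, over `K t`. For
every `s` there is `C` such that for all `T ≥ 1` and the pairs `t = (x, y)` of integers with
`|x|, |y| ≤ T`, not a zero of the forms: the sum of `2 ^ (s (rank W_t(K_t) + corank Ш(W_t / K_t)[2^∞]))`
is at most `C T²`, and at most `C T² / 2 ^ (s r)` of these `t` have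
`rank W_t(K_t) + corank Ш(W_t / K_t)[2^∞] ≥ r`. -/
theorem result (A B e₁ e₂ e₃ : ℤ) (hE : 4 * A ^ 3 + 27 * B ^ 2 ≠ 0)
    (he : ∀ x : ℤ, x ^ 3 + A * x + B = (x - e₁) * (x - e₂) * (x - e₃)) :
    (∀ (n : ℕ) (c : ℕ → ℤ), (∃ i ≤ n, c i ≠ 0) → ∀ s : ℕ, ∃ C : ℝ, ∀ T : ℕ, 1 ≤ T →
      (∀ t ∈ Par n c T, ∀ k : ℕ, Finite (ShaTor (Tw A B (form n c t)) (2 ^ k))) ∧
      (∀ k : ℕ, 1 ≤ k → ∑ t ∈ Par n c T,
        ((2 : ℝ) ^ Pool.Agent.TH841.SH.D.rk (Tw A B (form n c t)) *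
          (Nat.card (ShaTor (Tw A B (form n c t)) (2 ^ k)) : ℝ) ^ ((1 : ℝ) / k)) ^ s ≤
            C * (T : ℝ) ^ 2) ∧
      ∀ r q : ℕ, (((Par n c T).filter (fun t =>
        r ≤ Pool.Agent.TH841.SH.D.rk (Tw A B (form n c t)) ∧
        Pool.Agent.TH841.SH.D.HasDiv (Tw A B (form n c t)) q)).card : ℝ) ≤
          C * (T : ℝ) ^ 2 / 2 ^ (s * (r + q))) ∧
    (∀ (n₀ : ℕ) (c₀ : ℕ → ℤ), (∃ i ≤ n₀, c₀ i ≠ 0) →
      ∀ (m : ℕ) (n : Fin m → ℕ) (c : Fin m → ℕ → ℤ), (∀ i, ∃ j ≤ n i, c i j ≠ 0) →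
      ∀ s : ℕ, ∃ C : ℝ, ∀ T : ℕ, 1 ≤ T →
      ∀ (K : ℤ × ℤ → Type) [∀ t, Field (K t)] [∀ t, NumberField (K t)],
      (∀ t ∈ ParF n₀ c₀ n c T, Gen (K t) (fun i => form (n i) (c i) t)) →
      ∀ W : ∀ t, WeierstrassCurve (K t),
      (∀ t, W t = EF (form n₀ c₀ t ^ 2 * A) (form n₀ c₀ t ^ 3 * B) (K t)) →
      (∀ t ∈ ParF n₀ c₀ n c T, BddAbove {q | Pool.Agent.TH841.NF.D.HasDiv (W t) q}) ∧
      ∑ t ∈ ParF n₀ c₀ n c T,
        ((2 : ℝ) ^ (Pool.Agent.TH841.NF.D.rk (W t) + Pool.Agent.TH841.NF.D.crk (W t))) ^ s ≤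
          C * (T : ℝ) ^ 2 ∧
      ∀ r : ℕ, (((ParF n₀ c₀ n c T).filter (fun t =>
        r ≤ Pool.Agent.TH841.NF.D.rk (W t) + Pool.Agent.TH841.NF.D.crk (W t))).card : ℝ) ≤
          C * (T : ℝ) ^ 2 / 2 ^ (s * r)) := by
  refine ⟨fun n c hc s => ?_, fun n₀ c₀ hc₀ m n c hc s => ?_⟩
  · obtain ⟨C, -, hC⟩ := Pool.Agent.K7.H54.SG.shaB hE he hc s
    exact ⟨C, fun T hT => hC T hT⟩
  · obtain ⟨C, -, hC⟩ := Pool.Agent.K7.H54.SG.mqB hE he hc₀ n c hc s
    exact ⟨C, fun T hT K _ _ hK W hW => hC T hT K hK W hW⟩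

end Pool.Agent.Results.MP_157626_nt.BinaryFormTwists
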