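import Mathlib
import Pool.Agent.K7.H54.GT.Fin1

/-!
# The average of `2 ^ rank` in the families over the projective line with full 2-torsion

Every elliptic curve over `ℚ(t)` with full rational 2-torsion is isomorphic to
`y² = x (x - D u₀) (x - D u₁)`, where `D` is a squarefree polynomial with integer coefficients and
`u₀`, `u₁` are coprime polynomials with integer coefficients; let `u₂ = u₀ - u₁`. The parameter `t`
runs over the RATIONAL numbers of height at most `T`.

The places of multiplicative reduction of the class `k` are the irreducible factors of `u_k` that do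
not divide `D`, and infinity if `deg D + M` is even and `deg u_k < M`, where `M` is the largest of the
degrees of `u₀`, `u₁`, `u₂`. The place has the weight `1` if the reduction is split and `1/2` if it is
not split, in `s_k`, and the weight `1` if the multiplicity is odd or the reduction is split and `1/2`
otherwise, in `d_k`. The places of additive reduction (the irreducible factors of `D`, and infinity if
`deg D + M` is odd) are arbitrary and have no weight. If `2 s_k + d_k ≤ d₀ + d₁ + d₂` for
`k = 0, 1, 2`, the average of `2 ^ rank * #Ш[2 ^ k] ^ (1 / k)` over the rational numbers `t` of height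
at most `T` is bounded.

The condition holds for example if `u₀`, `u₁`, `u₂` are irreducible over `ℚ` of the same even degree
and `D = 1`, or if `u₀` and `u₁` are constants.
-/

set_option autoImplicit false

namespace Pool.Agent.Results.MP_157626_nt.FullTwoTorsionAverage

open Finset Polynomial

open Pool.Agent.TH841.SH.D (Sha ShaTor HasDiv rk)

/-- the curve `y² = x (x - A) (x - B)` over `ℚ` -/
def E (A B : ℚ) : WeierstrassCurve ℚ := ⟨0, -(A + B), 0, A * B, 0⟩

/-- the value of a polynomial at a rational number -/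
noncomputable def val (g : ℤ[X]) (t : ℚ) : ℚ := (g.map (Int.castRingHom ℚ)).eval t

/-- `v` is a square modulo `f`, over the rationals -/
def SqMod (f v : ℤ[X]) : Prop := ∃ q : ℚ[X], f.map (Int.castRingHom ℚ) ∣
  (q ^ 2 - v.map (Int.castRingHom ℚ))

/-- at a place of multiplicative reduction of the class `k` the curve `y² = x (x - D u₀) (x - D u₁)`
has a node whose tangent directions are the square roots of `v_k` -/
noncomputable def v (D : ℤ[X]) (u : Fin 3 → ℤ[X]) : Fin 3 → ℤ[X] :=
  ![-(D * u 1), -(D * u 0), D * u 0]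

/-- the largest degree of the `u_k` -/
noncomputable def M (u : Fin 3 → ℤ[X]) : ℕ := univ.sup fun k => (u k).natDegree

open Classical in
/-- the irreducible factors of `u_k` of positive degree (up to sign) that do not divide `D` -/
noncomputable def F (D : ℤ[X]) (u : Fin 3 → ℤ[X]) (k : Fin 3) : Finset ℤ[X] :=
  (UniqueFactorizationMonoid.normalizedFactors (u k)).toFinset.filter
    (fun g => 0 < g.natDegree ∧ ¬ g ∣ D)

open Classical in
/-- The places of multiplicative reduction of the class `k`: split reduction counts `1`, nonsplit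
reduction counts `1/2`. The last term is that of infinity. -/
noncomputable def s (D : ℤ[X]) (u : Fin 3 → ℤ[X]) (k : Fin 3) : ℝ :=
  ∑ g ∈ F D u k, (if SqMod g (v D u k) then (1 : ℝ) else 1 / 2) +
    (if Even (D.natDegree + M u) ∧ (u k).natDegree < M u then
      (if IsSquare (v D u k).leadingCoeff then (1 : ℝ) else 1 / 2) else 0)

open Classical in
/-- The places of multiplicative reduction of the class `k`: odd multiplicity or split reduction
counts `1`, even multiplicity and nonsplit reduction counts `1/2`. The last term is that of infinity,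
with the multiplicity `M - deg u_k`. -/
noncomputable def d (D : ℤ[X]) (u : Fin 3 → ℤ[X]) (k : Fin 3) : ℝ :=
  ∑ g ∈ F D u k, (if Odd (multiplicity g (u k)) ∨ SqMod g (v D u k) then (1 : ℝ) else 1 / 2) +
    (if Even (D.natDegree + M u) ∧ (u k).natDegree < M u then
      (if Odd (M u - (u k).natDegree) ∨ IsSquare (v D u k).leadingCoeff then (1 : ℝ)
        else 1 / 2) else 0)

/-- half of the least even integer that is at least `deg D + M` -/
noncomputable def m (D : ℤ[X]) (u : Fin 3 → ℤ[X]) : ℕ := (D.natDegree + M u + 1) / 2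

/-- The fibre at `t`, `y² = x (x - q D(t) u₀(t)) (x - q D(t) u₁(t))` with `q` the `2 m`-th power of
the denominator of `t`: a model with integer coefficients of
`y² = x (x - D(t) u₀(t)) (x - D(t) u₁(t))`, isomorphic to it over `ℚ` since `q` is a square. -/
noncomputable def W (D : ℤ[X]) (u : Fin 3 → ℤ[X]) (t : ℚ) : WeierstrassCurve ℚ :=
  E ((t.den : ℚ) ^ (2 * m D u) * (val D t * val (u 0) t))
    ((t.den : ℚ) ^ (2 * m D u) * (val D t * val (u 1) t))

open Classical in
/-- **Theorem.** Let `D`, `u₀`, `u₁`, `u₂ = u₀ - u₁` be nonzero polynomials with integer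
coefficients, `D` squarefree and `u₀`, `u₁` coprime over `ℚ`. Let `s_k` and `d_k` be the weights of
the places of multiplicative reduction of `y² = x (x - D u₀) (x - D u₁)` and assume that
`2 s_k + d_k ≤ d₀ + d₁ + d₂` for `k = 0, 1, 2`. There is `C` such that for every `T ≥ 1` and every
finite set `S` of rational numbers `t` of height at most `T` with `D(t) ≠ 0` and `u_k(t) ≠ 0`: all
the groups `Ш(W_t)[2 ^ k]` are finite, the sum of `2 ^ rank * #Ш(W_t)[2 ^ k] ^ (1 / k)` over `t ∈ S`
is at most `C T²` for all `k ≥ 1`, and at most `C T² / 2 ^ (r + q)` of the `W_t` have rank at least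
`r` and a subgroup `(ℚ₂ / ℤ₂) ^ q` in the Tate-Shafarevich group. -/
theorem result (D : ℤ[X]) (u : Fin 3 → ℤ[X]) (hD : Squarefree (D.map (Int.castRingHom ℚ)))
    (hu0 : ∀ k, u k ≠ 0) (hu : u 0 - u 1 = u 2)
    (hc : IsCoprime ((u 0).map (Int.castRingHom ℚ)) ((u 1).map (Int.castRingHom ℚ)))
    (hs : ∀ k, 2 * s D u k + d D u k ≤ d D u 0 + d D u 1 + d D u 2) :
    ∃ C : ℝ, ∀ T : ℕ, 1 ≤ T → ∀ S : Finset ℚ,
      (∀ t ∈ S, t.num.natAbs ≤ T ∧ t.den ≤ T ∧ val D t ≠ 0 ∧ ∀ k, val (u k) t ≠ 0) →
      (∀ t ∈ S, ∀ k : ℕ, Finite (ShaTor (W D u t) (2 ^ k))) ∧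
      (∀ k : ℕ, 1 ≤ k → ∑ t ∈ S, (2 : ℝ) ^ rk (W D u t) *
        (Nat.card (ShaTor (W D u t) (2 ^ k)) : ℝ) ^ ((1 : ℝ) / k) ≤ C * (T : ℝ) ^ 2) ∧
      ∀ r q : ℕ, ((S.filter (fun t => r ≤ rk (W D u t) ∧
        HasDiv (W D u t) q)).card : ℝ) ≤ C * (T : ℝ) ^ 2 / 2 ^ (r + q) :=
  Pool.Agent.K7.H54.GT.mainZ1 ⟨hD, hu0, hu, hc⟩ hs

end Pool.Agent.Results.MP_157626_nt.FullTwoTorsionAverage
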