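import Mathlib
import Pool.Agent.K7.H54.GU.Fin

/-!
# All moments of the rank off a thin set of rational parameters, and superexponential tails

Every elliptic curve over `ℚ(t)` with full rational 2-torsion is isomorphic to
`y² = x (x - D u₀) (x - D u₁)`, where `D` is a squarefree polynomial with integer coefficients and
`u₀`, `u₁` are coprime polynomials with integer coefficients; let `u₂ = u₀ - u₁`. The parameter `t`
runs over the RATIONAL numbers of height at most `T`.

The places of multiplicative reduction of the class `k` are the irreducible factors of `u_k` that do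
not divide `D`, and infinity if `deg D + M` is even and `deg u_k < M`, where `M` is the largest of the
degrees of `u₀`, `u₁`, `u₂`. The place has the weight `1` in `d_k` if the multiplicity is odd or the
reduction is split and `1/2` otherwise. The places of additive reduction (the irreducible factors of
`D`, and infinity if `deg D + M` is odd) are arbitrary and have no weight.

If `2 d_k < d₀ + d₁ + d₂` for `k = 0, 1, 2`, there is a set `Z` of rational numbers of density zero
such that ALL the exponential moments of the rank, the averages of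
`(2 ^ rank * #Ш[2 ^ k] ^ (1 / k)) ^ s` for every `s`, are bounded outside of `Z`; and the proportion
of the rational parameters whose fibre has rank at least `r` decays faster than every exponential
function of `r`.
-/

set_option autoImplicit false

namespace Pool.Agent.Results.MP_157626_nt.FullTwoTorsionTails

open Finset Polynomial

open Pool.Agent.TH841.SH.D (Sha ShaTor HasDiv rk)

/-- the curve `y² = x (x - A) (x - B)` over `ℚ` -/
def E (A B : ℚ) : WeierstrassCurve ℚ := ⟨0, -(A + B), 0, A * B, 0⟩

/-- the value of a polynomial at a rational number -/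
noncomputable def val (g : ℤ[X]) (t : ℚ) : ℚ := (g.map (Int.castRingHom ℚ)).eval t

/-- `v` is a square modulo `f`, over the rationals -/
def SqMod (f v : ℤ[X]) : Prop := ∃ q : ℚ[X], f.map (Int.castRingHom ℚ) ∣
  (q ^ 2 - v.map (Int.castRingHom ℚ))

/-- at a place of multiplicative reduction of the class `k` the curve `y² = x (x - D u₀) (x - D u₁)`
has a node whose tangent directions are the square roots of `v_k` -/
noncomputable def v (D : ℤ[X]) (u : Fin 3 → ℤ[X]) : Fin 3 → ℤ[X] :=
  ![-(D * u 1), -(D * u 0), D * u 0]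

/-- the largest degree of the `u_k` -/
noncomputable def M (u : Fin 3 → ℤ[X]) : ℕ := univ.sup fun k => (u k).natDegree

open Classical in
/-- the irreducible factors of `u_k` of positive degree (up to sign) that do not divide `D` -/
noncomputable def F (D : ℤ[X]) (u : Fin 3 → ℤ[X]) (k : Fin 3) : Finset ℤ[X] :=
  (UniqueFactorizationMonoid.normalizedFactors (u k)).toFinset.filter
    (fun g => 0 < g.natDegree ∧ ¬ g ∣ D)

open Classical in
/-- The places of multiplicative reduction of the class `k`: odd multiplicity or split reduction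
counts `1`, even multiplicity and nonsplit reduction counts `1/2`. The last term is that of infinity,
with the multiplicity `M - deg u_k`. -/
noncomputable def d (D : ℤ[X]) (u : Fin 3 → ℤ[X]) (k : Fin 3) : ℝ :=
  ∑ g ∈ F D u k, (if Odd (multiplicity g (u k)) ∨ SqMod g (v D u k) then (1 : ℝ) else 1 / 2) +
    (if Even (D.natDegree + M u) ∧ (u k).natDegree < M u then
      (if Odd (M u - (u k).natDegree) ∨ IsSquare (v D u k).leadingCoeff then (1 : ℝ)
        else 1 / 2) else 0)

/-- half of the least even integer that is at least `deg D + M` -/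
noncomputable def m (D : ℤ[X]) (u : Fin 3 → ℤ[X]) : ℕ := (D.natDegree + M u + 1) / 2

/-- The fibre at `t`, `y² = x (x - q D(t) u₀(t)) (x - q D(t) u₁(t))` with `q` the `2 m`-th power of
the denominator of `t`: a model with integer coefficients of
`y² = x (x - D(t) u₀(t)) (x - D(t) u₁(t))`, isomorphic to it over `ℚ` since `q` is a square. -/
noncomputable def W (D : ℤ[X]) (u : Fin 3 → ℤ[X]) (t : ℚ) : WeierstrassCurve ℚ :=
  E ((t.den : ℚ) ^ (2 * m D u) * (val D t * val (u 0) t))
    ((t.den : ℚ) ^ (2 * m D u) * (val D t * val (u 1) t))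

/-- `t` is a rational number of height at most `T` and the fibre at `t` is nonsingular -/
def Par (D : ℤ[X]) (u : Fin 3 → ℤ[X]) (T : ℕ) (t : ℚ) : Prop :=
  t.num.natAbs ≤ T ∧ t.den ≤ T ∧ val D t ≠ 0 ∧ ∀ k, val (u k) t ≠ 0

open Classical in
/-- **Theorem.** Let `D`, `u₀`, `u₁`, `u₂ = u₀ - u₁` be nonzero polynomials with integer
coefficients, `D` squarefree and `u₀`, `u₁` coprime over `ℚ`. Let `d_k` be the weights of the places
of multiplicative reduction of `y² = x (x - D u₀) (x - D u₁)` and assume that
`2 d_k < d₀ + d₁ + d₂` for `k = 0, 1, 2`.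

1. There is a set `Z` of rational numbers of density zero (a finite set of elements of `Z` of height
at most `T` with a nonsingular fibre has at most `e T²` elements for `T ≥ T₀(e)`, for every `e > 0`)
such that for every `s ≥ 0` there is `C` such that for every `T ≥ 1` and every finite set `S` of
rational numbers of height at most `T`, with a nonsingular fibre and not in `Z`: all the groups
`Ш(W_t)[2 ^ k]` are finite and the sum of `(2 ^ rank * #Ш(W_t)[2 ^ k] ^ (1 / k)) ^ s` over `t ∈ S` is
at most `C T²` for all `k ≥ 1`.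

2. For every `A > 0` there is `r₀` such that for all `r`, `q` with `r + q ≥ r₀`, among the rational
numbers of height at most `T` at most `T² / A ^ (r + q)` have a nonsingular fibre `W_t` of rank at
least `r` with a subgroup `(ℚ₂ / ℤ₂) ^ q` in the Tate-Shafarevich group, for `T ≥ T₀(A, r, q)`. -/
theorem result (D : ℤ[X]) (u : Fin 3 → ℤ[X]) (hD : Squarefree (D.map (Int.castRingHom ℚ)))
    (hu0 : ∀ k, u k ≠ 0) (hu : u 0 - u 1 = u 2)
    (hc : IsCoprime ((u 0).map (Int.castRingHom ℚ)) ((u 1).map (Int.castRingHom ℚ)))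
    (hs : ∀ k, 2 * d D u k < d D u 0 + d D u 1 + d D u 2) :
    (∃ Z : Set ℚ,
      (∀ e : ℝ, 0 < e → ∃ T0 : ℕ, ∀ T : ℕ, T0 ≤ T → ∀ S : Finset ℚ,
        (∀ t ∈ S, t ∈ Z ∧ Par D u T t) → (S.card : ℝ) ≤ e * (T : ℝ) ^ 2) ∧
      ∀ s : ℝ, 0 ≤ s → ∃ C : ℝ, ∀ T : ℕ, 1 ≤ T → ∀ S : Finset ℚ,
        (∀ t ∈ S, t ∉ Z ∧ Par D u T t) →
        (∀ t ∈ S, ∀ k : ℕ, Finite (ShaTor (W D u t) (2 ^ k))) ∧
        ∀ k : ℕ, 1 ≤ k → ∑ t ∈ S, ((2 : ℝ) ^ rk (W D u t) *
          (Nat.card (ShaTor (W D u t) (2 ^ k)) : ℝ) ^ ((1 : ℝ) / k)) ^ s ≤ C * (T : ℝ) ^ 2) ∧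
    ∀ A : ℝ, 0 < A → ∃ r0 : ℕ, ∀ r q : ℕ, r0 ≤ r + q → ∃ T0 : ℕ, ∀ T : ℕ, T0 ≤ T →
      ∀ S : Finset ℚ, (∀ t ∈ S, Par D u T t ∧ r ≤ rk (W D u t) ∧ HasDiv (W D u t) q) →
        (S.card : ℝ) ≤ (T : ℝ) ^ 2 / A ^ (r + q) :=
  Pool.Agent.K7.H54.GU.mainT2 ⟨hD, hu0, hu, hc⟩ hs

end Pool.Agent.Results.MP_157626_nt.FullTwoTorsionTails
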